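import Mathlib
import Pool.Agent.Lib.MP_233400_co.AT.Asm

set_option autoImplicit false

namespace Pool.Agent.Results.MP_233400_co.AllTrees

open Pool.Agent.Lib.MP_233400_co

/-- **Theorem.** There is a constant `K` such that for all `n`, all `k ≥ 1` and all trees `T` with `k`
edges `ex*(Q_n, K_{1,k}) ≤ ex*(Q_n, T) ≤ ex*(Q_n, K_{1,k}) + K k ^ (4/5) 2 ^ n`. -/
theorem result : ∃ K : ℝ, ∀ (n k : ℕ) (W : Type) [Finite W] (T : SimpleGraph W), 1 ≤ k →
    T.IsTree → T.edgeSet.ncard = k →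
    exStar (Q n) (completeBipartiteGraph (Fin 1) (Fin k)) ≤ exStar (Q n) T ∧
    (exStar (Q n) T : ℝ) ≤ exStar (Q n) (completeBipartiteGraph (Fin 1) (Fin k)) +
      K * (k : ℝ) ^ (4 / 5 : ℝ) * 2 ^ n :=
  AT.a_FIN

end Pool.Agent.Results.MP_233400_co.AllTrees
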