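import Mathlib
import Pool.Agent.Lib.MP_233400_co.Finish

set_option autoImplicit false

namespace Pool.Agent.Results.MP_233400_co.ManyLeaves

open Pool.Agent.Lib.MP_233400_co

/-- **Theorem.** Let `T` be a tree with `k ≥ 1` edges that has a vertex `v` adjacent to at least
`k / 2 + 6 √k` leaves. Then `ex*(Q_n, T) = ex*(Q_n, K_{1,k})` for every `n`. -/
theorem result (n k : ℕ) (hk1 : 1 ≤ k) {W : Type} [Finite W] (T : SimpleGraph W)
    (hT : T.IsTree) (hk : T.edgeSet.ncard = k) (v : W)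
    (hv : (k : ℝ) / 2 + 6 * √(k : ℝ) ≤
      ({u : W | T.Adj v u ∧ ∀ w : W, T.Adj u w → w = v}.ncard : ℝ)) :
    exStar (Q n) T = exStar (Q n) (completeBipartiteGraph (Fin 1) (Fin k)) := by
  classical
  have : Fintype W := Fintype.ofFinite W
  set L := {u : W | T.Adj v u ∧ ∀ w : W, T.Adj u w → w = v} with hL
  have hLk : L.ncard ≤ k := by
    rw [← hk]
    apply Set.ncard_le_ncard_of_injOn (fun u => s(v, u))
    · intro u hu; exact hu.1
    · intro u _ w _ huw
      have h : u = w ∨ v = w ∧ u = v := by simpa using huw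
      rcases h with h | ⟨h1, h2⟩
      · exact h
      · rw [h2, h1]
  obtain ⟨j, hj⟩ : ∃ j, L.ncard + j = k := ⟨k - L.ncard, by omega⟩
  have hjR : (L.ncard : ℝ) + j = k := by exact_mod_cast hj
  have hk1R : (1 : ℝ) ≤ k := by exact_mod_cast hk1
  have hnum : (j : ℝ) + 8 * √(j : ℝ) ≤ ((k : ℝ) - 1) / 2 := by
    have h0 : (0 : ℝ) ≤ j := by positivity
    have hs : 0 ≤ √(k : ℝ) := Real.sqrt_nonneg _
    have hsk : √(k : ℝ) * √(k : ℝ) = k := Real.mul_self_sqrt (by positivity)
    have h12 : 12 ≤ √(k : ℝ) := by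
      have hLle : (L.ncard : ℝ) ≤ k := by exact_mod_cast hLk
      have h1 : 6 * √(k : ℝ) ≤ (k : ℝ) / 2 := by linarith
      by_contra hlt
      push Not at hlt
      have hpos : 0 < √(k : ℝ) := Real.sqrt_pos.mpr (by linarith)
      nlinarith
    have hjk : (j : ℝ) ≤ (k : ℝ) / 2 - 6 * √(k : ℝ) := by linarith
    have hsj : √(j : ℝ) ≤ 0.71 * √(k : ℝ) := by
      rw [Real.sqrt_le_left (by positivity)]
      nlinarith
    linarith
  apply exact_of_upper hk1 hk
  intro n H hH c hc hD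
  obtain ⟨S, hS, hmin⟩ := exists_core H ((k : ℝ) - 1) hD
  obtain ⟨x0, hx0, hlarge⟩ := exists_large_of_core H ((k : ℝ) - 1) S hS
  refine embed_main hc ?_ hT hk (r := v) (j := j) hj hx0 ?_ ?_
  · intro x y hxy A hA
    exact Q_codeg hxy A fun w hw => ⟨hH (hA w hw).1, hH (hA w hw).2⟩
  · have h2 : (k : ℝ) < ((nb H S x0).card + 1 : ℕ) := by push_cast; linarith
    have h3 : k < (nb H S x0).card + 1 := by exact_mod_cast h2
    omega
  · intro u hu
    have h1 := hmin u hu
    linarith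

end Pool.Agent.Results.MP_233400_co.ManyLeaves
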