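import Pool.Agent.Lib.MP_233400_co.RP.Asm

set_option autoImplicit false

namespace Pool.Agent.Results.MP_233400_co.PathsUpToLog

open Pool.Agent.Lib.MP_233400_co

/-- **Theorem.** For all `n` and all `k ≥ 1`, for the path `P_k` with `k` edges,
`ex*(Q_n, K_{1,k}) ≤ ex*(Q_n, P_k) ≤ ex*(Q_n, K_{1,k}) + 5000 log (k + 1) 2 ^ n`. -/
theorem result (n k : ℕ) (hk : 1 ≤ k) :
    exStar (Q n) (completeBipartiteGraph (Fin 1) (Fin k)) ≤
        exStar (Q n) (SimpleGraph.pathGraph (k + 1)) ∧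
      (exStar (Q n) (SimpleGraph.pathGraph (k + 1)) : ℝ) ≤
        exStar (Q n) (completeBipartiteGraph (Fin 1) (Fin k)) +
          5000 * Real.log ((k : ℝ) + 1) * 2 ^ n := by
  refine ⟨?_, RP.fin n k hk⟩
  have h1 := star_value hk n
  have h2 := lower_bound hk (RP.p_TREE k).2 n
  omega

end Pool.Agent.Results.MP_233400_co.PathsUpToLog
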