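import Mathlib
import Pool.Agent.Lib.MP_233400_co.AT.AsmA

set_option autoImplicit false

namespace Pool.Agent.Results.MP_233400_co.RainbowHom

open Pool.Agent.Lib.MP_233400_co

/-- **Theorem.** Let `H` be a finite graph of average degree more than `k - 1`, properly edge-coloured
by `c`, and let `T` be a tree with `k ≥ 1` edges. Then there is a homomorphism `g` from `T` to `H`
such that the images of the `k` edges of `T` have `k` different colours. -/
theorem result (V W : Type) [Finite V] [Finite W] (H : SimpleGraph V) (c : Sym2 V → ℕ)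
    (T : SimpleGraph W) (k : ℕ) (hc : ProperColouring H c) (hT : T.IsTree)
    (hk : T.edgeSet.ncard = k) (hk1 : 1 ≤ k)
    (hd : (k - 1) * Nat.card V < 2 * H.edgeSet.ncard) :
    ∃ g : W → V, (∀ a b, T.Adj a b → H.Adj (g a) (g b)) ∧
      Set.InjOn (fun e : Sym2 W => c (e.map g)) T.edgeSet :=
  AT.a_THF V W H c T k hc hT hk hk1 hd

end Pool.Agent.Results.MP_233400_co.RainbowHom
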